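import Pool.Agent.helper95.PY2.Spec

/-! Row py2:CASEA. -/

set_option autoImplicit false

open Finset

namespace Pool.Agent.PY2

theorem CASEA_big (K s : ℝ) (hs : 0 < s) : ∃ p₀ : ℕ, ∀ p : ℕ, p₀ < p → K ≤ (p : ℝ) ^ s := by
  have h := (tendsto_rpow_atTop hs).comp tendsto_natCast_atTop_atTop
  have h2 := h.eventually_ge_atTop K
  obtain ⟨p₀, hp₀⟩ := Filter.eventually_atTop.mp h2
  exact ⟨p₀, fun p hp => hp₀ p hp.le⟩

/-- the moment bound in the range `V^k ≥ √p` -/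
theorem CASEA_mom (k : ℕ) (V P s M : ℝ) (hV : 0 ≤ V) (hs : 0 ≤ s) (hP : P = s * s)
    (hVk : s ≤ V ^ k)
    (hM : M ≤ (k : ℝ) ^ (2 * k) * V ^ k * P + V ^ (2 * k) * (4 * k * s)) :
    M ≤ ((k : ℝ) ^ (2 * k) + 4 * k) * (s * V ^ (2 * k)) := by
  have h1 : V ^ k * P ≤ s * V ^ (2 * k) := by
    rw [hP, two_mul, pow_add]
    have : V ^ k * (s * s) ≤ V ^ k * (V ^ k * s) := by
      apply mul_le_mul_of_nonneg_left _ (by positivity)
      exact mul_le_mul_of_nonneg_right hVk hs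
    calc V ^ k * (s * s) ≤ V ^ k * (V ^ k * s) := this
      _ = s * (V ^ k * V ^ k) := by ring
  have h2 : (k : ℝ) ^ (2 * k) * V ^ k * P ≤ (k : ℝ) ^ (2 * k) * (s * V ^ (2 * k)) := by
    rw [mul_assoc]
    exact mul_le_mul_of_nonneg_left h1 (by positivity)
  calc M ≤ (k : ℝ) ^ (2 * k) * V ^ k * P + V ^ (2 * k) * (4 * k * s) := hM
    _ ≤ (k : ℝ) ^ (2 * k) * (s * V ^ (2 * k)) + V ^ (2 * k) * (4 * k * s) := by linarith
    _ = ((k : ℝ) ^ (2 * k) + 4 * k) * (s * V ^ (2 * k)) := by ring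

/-- the second moment of `nu` times `√p` -/
theorem CASEA_two (P e C X N b L T s Q : ℝ) (hP : 1 ≤ P) (he : 0 < e) (he1 : 8 * e ≤ 1 / 2)
    (hC : 0 < C) (hN : 0 ≤ N) (hb : 0 ≤ b) (hL : 0 < L) (hX : X = N * b)
    (hXl : P ^ (1 / 2 + 16 * e) ≤ X) (hNL : N * P ^ (-(4 * e)) ≤ L) (hT : T ≤ C * P ^ e)
    (hs : s = P ^ (1 / 2 : ℝ))
    (hQ : Q ≤ 10 ^ 4 * N ^ 2 * b ^ 2 / P + 10 ^ 5 * T * N ^ 2 * b / L) :
    Q * s ≤ X ^ 2 * ((10 ^ 4 + 10 ^ 5 * C) * P ^ (-(8 * e))) := by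
  have hP0 : 0 < P := by linarith
  have hX0 : 0 < X := lt_of_lt_of_le (by positivity) hXl
  have hs0 : 0 < s := by rw [hs]; positivity
  have hNL2 : N ≤ L * P ^ (4 * e) := by
    have h1 : N * P ^ (-(4 * e)) * P ^ (4 * e) ≤ L * P ^ (4 * e) :=
      mul_le_mul_of_nonneg_right hNL (by positivity)
    rw [mul_assoc, ← Real.rpow_add hP0] at h1
    have h2 : -(4 * e) + 4 * e = 0 := by ring
    rw [h2, Real.rpow_zero, mul_one] at h1
    exact h1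
  have h1 : 10 ^ 5 * T * N ^ 2 * b / L ≤ 10 ^ 5 * C * P ^ (5 * e) * X := by
    have h2 : T * (N ^ 2 * b / L) ≤ (C * P ^ e) * (X * P ^ (4 * e)) := by
      have h3 : N ^ 2 * b / L ≤ X * P ^ (4 * e) := by
        rw [div_le_iff₀ hL, hX]
        calc N ^ 2 * b = (N * b) * N := by ring
          _ ≤ (N * b) * (L * P ^ (4 * e)) := mul_le_mul_of_nonneg_left hNL2 (by positivity)
          _ = N * b * P ^ (4 * e) * L := by ring
      have h4 : 0 ≤ N ^ 2 * b / L := by positivity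
      calc T * (N ^ 2 * b / L) ≤ (C * P ^ e) * (N ^ 2 * b / L) :=
            mul_le_mul_of_nonneg_right hT h4
        _ ≤ (C * P ^ e) * (X * P ^ (4 * e)) := mul_le_mul_of_nonneg_left h3 (by positivity)
    have h5 : P ^ (5 * e) = P ^ e * P ^ (4 * e) := by
      rw [← Real.rpow_add hP0]
      congr 1
      ring
    calc 10 ^ 5 * T * N ^ 2 * b / L = 10 ^ 5 * (T * (N ^ 2 * b / L)) := by ring
      _ ≤ 10 ^ 5 * ((C * P ^ e) * (X * P ^ (4 * e))) :=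
          mul_le_mul_of_nonneg_left h2 (by norm_num)
      _ = 10 ^ 5 * C * P ^ (5 * e) * X := by rw [h5]; ring
  have h6 : Q * s ≤ (10 ^ 4 * N ^ 2 * b ^ 2 / P + 10 ^ 5 * C * P ^ (5 * e) * X) * s := by
    apply mul_le_mul_of_nonneg_right _ hs0.le
    linarith
  have h7 : 10 ^ 4 * N ^ 2 * b ^ 2 / P * s ≤ X ^ 2 * (10 ^ 4 * P ^ (-(8 * e))) := by
    have h8 : s / P = P ^ (-(1 / 2) : ℝ) := by
      rw [hs]
      nth_rewrite 2 [← Real.rpow_one P]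
      rw [← Real.rpow_sub hP0]
      congr 1
      norm_num
    have h9 : P ^ (-(1 / 2) : ℝ) ≤ P ^ (-(8 * e)) :=
      Real.rpow_le_rpow_of_exponent_le hP (by linarith)
    calc 10 ^ 4 * N ^ 2 * b ^ 2 / P * s = X ^ 2 * (10 ^ 4 * (s / P)) := by rw [hX]; ring
      _ ≤ X ^ 2 * (10 ^ 4 * P ^ (-(8 * e))) := by
          apply mul_le_mul_of_nonneg_left _ (by positivity)
          apply mul_le_mul_of_nonneg_left _ (by norm_num)
          rw [h8]
          exact h9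
  have h10 : 10 ^ 5 * C * P ^ (5 * e) * X * s ≤ X ^ 2 * (10 ^ 5 * C * P ^ (-(8 * e))) := by
    have h11 : P ^ (5 * e) * s ≤ X * P ^ (-(11 * e)) := by
      have h12 : P ^ (5 * e) * s = P ^ (1 / 2 + 16 * e) * P ^ (-(11 * e)) := by
        rw [hs, ← Real.rpow_add hP0, ← Real.rpow_add hP0]
        congr 1
        ring
      rw [h12]
      exact mul_le_mul_of_nonneg_right hXl (by positivity)
    have h13 : P ^ (-(11 * e)) ≤ P ^ (-(8 * e)) :=
      Real.rpow_le_rpow_of_exponent_le hP (by linarith)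
    calc 10 ^ 5 * C * P ^ (5 * e) * X * s = 10 ^ 5 * C * X * (P ^ (5 * e) * s) := by ring
      _ ≤ 10 ^ 5 * C * X * (X * P ^ (-(11 * e))) :=
          mul_le_mul_of_nonneg_left h11 (by positivity)
      _ ≤ 10 ^ 5 * C * X * (X * P ^ (-(8 * e))) := by
          apply mul_le_mul_of_nonneg_left _ (by positivity)
          exact mul_le_mul_of_nonneg_left h13 hX0.le
      _ = X ^ 2 * (10 ^ 5 * C * P ^ (-(8 * e))) := by ring
  calc Q * s ≤ (10 ^ 4 * N ^ 2 * b ^ 2 / P + 10 ^ 5 * C * P ^ (5 * e) * X) * s := h6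
    _ = 10 ^ 4 * N ^ 2 * b ^ 2 / P * s + 10 ^ 5 * C * P ^ (5 * e) * X * s := by ring
    _ ≤ X ^ 2 * (10 ^ 4 * P ^ (-(8 * e))) + X ^ 2 * (10 ^ 5 * C * P ^ (-(8 * e))) :=
        add_le_add h7 h10
    _ = X ^ 2 * ((10 ^ 4 + 10 ^ 5 * C) * P ^ (-(8 * e))) := by ring

/-- from Hoelder to the bound of `∑ nu Ph` -/
theorem CASEA_hol (k : ℕ) (hk : 1 ≤ k) (P e C X V s U Q W Mm K d : ℝ) (hP : 1 ≤ P)
    (hX : 0 ≤ X) (hV : 0 ≤ V) (hs : 0 ≤ s) (hU : 0 ≤ U) (hQ0 : 0 ≤ Q) (hK0 : 0 ≤ K)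
    (_hC : 0 < C) (hW0 : 0 ≤ W) (hUX : U ≤ X)
    (hM : Mm ≤ K * (s * V ^ (2 * k)))
    (hQ : Q * s ≤ X ^ 2 * ((10 ^ 4 + 10 ^ 5 * C) * P ^ (-(8 * e))))
    (hbig : K * (10 ^ 4 + 10 ^ 5 * C) ≤ P ^ (4 * e))
    (hd : d * (2 * k) = 4 * e)
    (hW : W ^ (2 * k) ≤ U ^ (2 * k - 2) * Q * Mm) : W ≤ X * V * P ^ (-d) := by
  have hP0 : 0 < P := by linarith
  have h1 : U ^ (2 * k - 2) ≤ X ^ (2 * k - 2) := pow_le_pow_left₀ hU hUX _
  have h2 : X ^ (2 * k) = X ^ (2 * k - 2) * X ^ 2 := by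
    rw [← pow_add]
    congr 1
    omega
  have h3 : W ^ (2 * k) ≤ (X * V * P ^ (-d)) ^ (2 * k) := by
    have h4 : (P ^ (-d)) ^ (2 * k) = P ^ (-(4 * e)) := by
      rw [← Real.rpow_natCast, ← Real.rpow_mul hP0.le]
      congr 1
      push_cast
      linarith
    have h5 : P ^ (4 * e) * P ^ (-(8 * e)) = P ^ (-(4 * e)) := by
      rw [← Real.rpow_add hP0]
      congr 1
      ring
    calc W ^ (2 * k) ≤ U ^ (2 * k - 2) * Q * Mm := hW
      _ ≤ X ^ (2 * k - 2) * Q * (K * (s * V ^ (2 * k))) := by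
          have h6 : U ^ (2 * k - 2) * Q ≤ X ^ (2 * k - 2) * Q :=
            mul_le_mul_of_nonneg_right h1 hQ0
          calc U ^ (2 * k - 2) * Q * Mm ≤ U ^ (2 * k - 2) * Q * (K * (s * V ^ (2 * k))) :=
                mul_le_mul_of_nonneg_left hM (by positivity)
            _ ≤ X ^ (2 * k - 2) * Q * (K * (s * V ^ (2 * k))) :=
                mul_le_mul_of_nonneg_right h6 (by positivity)
      _ = X ^ (2 * k - 2) * K * V ^ (2 * k) * (Q * s) := by ring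
      _ ≤ X ^ (2 * k - 2) * K * V ^ (2 * k) *
          (X ^ 2 * ((10 ^ 4 + 10 ^ 5 * C) * P ^ (-(8 * e)))) :=
          mul_le_mul_of_nonneg_left hQ (by positivity)
      _ = X ^ (2 * k) * V ^ (2 * k) * ((K * (10 ^ 4 + 10 ^ 5 * C)) * P ^ (-(8 * e))) := by
          rw [h2]
          ring
      _ ≤ X ^ (2 * k) * V ^ (2 * k) * (P ^ (4 * e) * P ^ (-(8 * e))) := by
          apply mul_le_mul_of_nonneg_left _ (by positivity)
          exact mul_le_mul_of_nonneg_right hbig (by positivity)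
      _ = (X * V * P ^ (-d)) ^ (2 * k) := by
          rw [h5, mul_pow, mul_pow, h4]
  exact (pow_le_pow_iff_left₀ hW0 (by positivity) (by omega)).mp h3

/-- the end of the proof -/
theorem CASEA_end (P e X N b L V G S d W : ℝ) (hP : 1 ≤ P) (_he : 0 < e) (hde : d ≤ e)
    (_hd0 : 0 < d) (hN : 0 ≤ N) (hb : 0 ≤ b) (hX : X = N * b) (hV0 : 0 < V)
    (hV : V ≤ P ^ e) (hL : L ≤ 2 * N * P ^ (-(4 * e))) (_hL0 : 0 ≤ L) (hS0 : 0 ≤ S)
    (hbig : 19 ≤ P ^ (d / 2)) (hW : W ≤ X * V * P ^ (-d))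
    (hG : V * G ≤ W + 4 * L * V ^ 2 * b)
    (hS : S ^ 2 ≤ b * N * (N * b / P ^ e + 2 * G)) : S ≤ P ^ (-(d / 4)) * N * b := by
  have hP0 : 0 < P := by linarith
  have hX0 : 0 ≤ X := by rw [hX]; positivity
  have h1 : L * V * b ≤ 2 * X * P ^ (-(3 * e)) := by
    have h2 : L * V ≤ 2 * N * P ^ (-(4 * e)) * P ^ e := by
      calc L * V ≤ 2 * N * P ^ (-(4 * e)) * V := mul_le_mul_of_nonneg_right hL hV0.le
        _ ≤ 2 * N * P ^ (-(4 * e)) * P ^ e := mul_le_mul_of_nonneg_left hV (by positivity)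
    have h3 : P ^ (-(4 * e)) * P ^ e = P ^ (-(3 * e)) := by
      rw [← Real.rpow_add hP0]
      congr 1
      ring
    calc L * V * b ≤ 2 * N * P ^ (-(4 * e)) * P ^ e * b := mul_le_mul_of_nonneg_right h2 hb
      _ = 2 * X * (P ^ (-(4 * e)) * P ^ e) := by rw [hX]; ring
      _ = 2 * X * P ^ (-(3 * e)) := by rw [h3]
  have h4 : G ≤ X * P ^ (-d) + 4 * (L * V * b) := by
    have h5 : V * G ≤ V * (X * P ^ (-d) + 4 * (L * V * b)) := by
      calc V * G ≤ W + 4 * L * V ^ 2 * b := hG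
        _ ≤ X * V * P ^ (-d) + 4 * L * V ^ 2 * b := by linarith
        _ = V * (X * P ^ (-d) + 4 * (L * V * b)) := by ring
    exact le_of_mul_le_mul_left h5 hV0
  have h6 : P ^ (-(3 * e)) ≤ P ^ (-d) := Real.rpow_le_rpow_of_exponent_le hP (by linarith)
  have h7 : P ^ (-e) ≤ P ^ (-d) := Real.rpow_le_rpow_of_exponent_le hP (by linarith)
  have h8 : G ≤ 9 * (X * P ^ (-d)) := by
    have : X * P ^ (-(3 * e)) ≤ X * P ^ (-d) := mul_le_mul_of_nonneg_left h6 hX0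
    linarith
  have h9 : N * b / P ^ e ≤ X * P ^ (-d) := by
    rw [div_eq_mul_inv, ← Real.rpow_neg hP0.le, ← hX]
    exact mul_le_mul_of_nonneg_left h7 hX0
  have h10 : S ^ 2 ≤ X ^ 2 * (19 * P ^ (-d)) := by
    calc S ^ 2 ≤ b * N * (N * b / P ^ e + 2 * G) := hS
      _ ≤ b * N * (19 * (X * P ^ (-d))) := by
          apply mul_le_mul_of_nonneg_left _ (by positivity)
          linarith
      _ = X ^ 2 * (19 * P ^ (-d)) := by rw [hX]; ring
  have h11 : 19 * P ^ (-d) ≤ P ^ (-(d / 2)) := by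
    have h12 : P ^ (-(d / 2)) = P ^ (d / 2) * P ^ (-d) := by
      rw [← Real.rpow_add hP0]
      congr 1
      ring
    rw [h12]
    exact mul_le_mul_of_nonneg_right hbig (by positivity)
  have h13 : S ^ 2 ≤ (P ^ (-(d / 4)) * N * b) ^ 2 := by
    have h14 : (P ^ (-(d / 4))) ^ 2 = P ^ (-(d / 2)) := by
      rw [← Real.rpow_natCast, ← Real.rpow_mul hP0.le]
      congr 1
      push_cast
      ring
    calc S ^ 2 ≤ X ^ 2 * (19 * P ^ (-d)) := h10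
      _ ≤ X ^ 2 * P ^ (-(d / 2)) := mul_le_mul_of_nonneg_left h11 (by positivity)
      _ = (P ^ (-(d / 4)) * N * b) ^ 2 := by rw [← h14, hX]; ring
  exact (pow_le_pow_iff_left₀ hS0 (by positivity) (by norm_num)).mp h13

theorem CASEA (h1 : MOM_stmt) (h2 : CS_stmt) (h3 : NUS_stmt) (h4 : MASS_stmt)
    (h5 : COL_stmt) (h6 : HOL_stmt) (h7 : DIV_stmt) : CASEA_stmt := by
  intro ε hε hε1
  obtain ⟨e, he⟩ : ∃ e : ℝ, e = ε / 16 := ⟨_, rfl⟩
  have he0 : 0 < e := by rw [he]; positivity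
  obtain ⟨C, hC0, hC⟩ := h7 e he0
  obtain ⟨k, hk⟩ : ∃ k : ℕ, 16 / ε + 2 ≤ (k : ℝ) := exists_nat_ge _
  have hk16 : 0 < 16 / ε := by positivity
  have hk2R : (2 : ℝ) ≤ (k : ℝ) := by linarith
  have hk2 : 2 ≤ k := by exact_mod_cast hk2R
  have hk0R : (0 : ℝ) < (k : ℝ) := by linarith
  have hek : 1 ≤ e * k := by
    have h8 : e * (16 / ε) = 1 := by
      rw [he]
      field_simp
    nlinarith
  obtain ⟨d, hd⟩ : ∃ d : ℝ, d = 2 * e / k := ⟨_, rfl⟩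
  have hd0 : 0 < d := by rw [hd]; positivity
  have hde : d ≤ e := by
    rw [hd, div_le_iff₀ hk0R]
    nlinarith
  have hd2k : d * (2 * (k : ℝ)) = 4 * e := by
    rw [hd]
    field_simp
    ring
  obtain ⟨K, hK⟩ : ∃ K : ℝ, K = (k : ℝ) ^ (2 * k) + 4 * k := ⟨_, rfl⟩
  have hK0 : 0 ≤ K := by rw [hK]; positivity
  obtain ⟨p₁, hp₁⟩ := CASEA_big 2 (e / 2) (by positivity)
  obtain ⟨p₂, hp₂⟩ := CASEA_big (K * (10 ^ 4 + 10 ^ 5 * C)) (4 * e) (by positivity)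
  obtain ⟨p₃, hp₃⟩ := CASEA_big 19 (d / 2) (by positivity)
  refine ⟨d / 4, by positivity, p₁ + p₂ + p₃ + 576, ?_⟩
  intro p _ hp N L B hN hN2 hX hL1 hL2 hcl χ hχ β hβ
  have hb1 := hp₁ p (by omega)
  have hb2 := hp₂ p (by omega)
  have hb3 := hp₃ p (by omega)
  have hp576 : 576 < p := by omega
  obtain ⟨P, hPdef⟩ : ∃ P : ℝ, P = (p : ℝ) := ⟨_, rfl⟩
  rw [← hPdef] at hb1 hb2 hb3 hN hX hL1 hL2 hcl ⊢
  have hP576 : (576 : ℝ) < P := by rw [hPdef]; exact_mod_cast hp576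
  have hP1 : 1 ≤ P := by linarith
  have hP0 : 0 < P := by linarith
  have hε4 : ε / 4 = 4 * e := by rw [he]; ring
  have hε16 : ε = 16 * e := by rw [he]; ring
  rw [hε4] at hL1 hL2
  rw [hε16] at hX hN
  have hcl' : ∀ j, cl B L j = ∅ ∨ P ^ e ≤ ((cl B L j).card : ℝ) := by
    intro j
    have := hcl j
    rwa [← he] at this
  -- the size of V
  obtain ⟨V, hVdef⟩ : ∃ V : ℕ, V = ⌊P ^ e⌋₊ := ⟨_, rfl⟩
  have hVle : (V : ℝ) ≤ P ^ e := by
    rw [hVdef]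
    exact Nat.floor_le (by positivity)
  have hVlt : P ^ e < V + 1 := by
    rw [hVdef]
    exact Nat.lt_floor_add_one _
  have hyy : P ^ e = P ^ (e / 2) * P ^ (e / 2) := by
    rw [← Real.rpow_add hP0]
    congr 1
    ring
  have hVy : P ^ (e / 2) ≤ V := by nlinarith
  have hV0 : (0 : ℝ) < V := by linarith
  have hVk : P ^ (1 / 2 : ℝ) ≤ (V : ℝ) ^ k := by
    calc P ^ (1 / 2 : ℝ) ≤ P ^ (e / 2 * k) :=
          Real.rpow_le_rpow_of_exponent_le hP1 (by linarith)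
      _ = (P ^ (e / 2)) ^ k := by rw [Real.rpow_mul hP0.le, Real.rpow_natCast]
      _ ≤ (V : ℝ) ^ k := pow_le_pow_left₀ (by positivity) hVy k
  have hss : P = P ^ (1 / 2 : ℝ) * P ^ (1 / 2 : ℝ) := by
    rw [← Real.rpow_add hP0]
    norm_num
  have hs24 : 24 < P ^ (1 / 2 : ℝ) := by
    by_contra hcon
    rw [not_lt] at hcon
    have h8 : 0 < P ^ (1 / 2 : ℝ) := by positivity
    nlinarith
  have he16 : e ≤ 1 / 16 := by linarith
  have hVs : (V : ℝ) ≤ P ^ (1 / 2 : ℝ) :=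
    hVle.trans (Real.rpow_le_rpow_of_exponent_le hP1 (by linarith))
  have h2V : 2 * V + 1 < p := by
    have h8 : 2 * (V : ℝ) + 1 < P := by nlinarith
    rw [hPdef] at h8
    exact_mod_cast h8
  -- N and L
  have hNs : (N : ℝ) ≤ P ^ (1 / 2 : ℝ) := by
    have h8 : (N : ℝ) ^ 2 ≤ P := by
      rw [hPdef]
      exact_mod_cast hN2
    by_contra hcon
    rw [not_le] at hcon
    have h9 : 0 < P ^ (1 / 2 : ℝ) := by positivity
    nlinarith
  have h24N : 24 * N ≤ p := by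
    have h8 : 24 * (N : ℝ) ≤ P := by nlinarith [Nat.cast_nonneg (α := ℝ) N]
    rw [hPdef] at h8
    exact_mod_cast h8
  have hN0 : (0 : ℝ) < N := lt_of_lt_of_le (by positivity) hN
  have hL0 : (0 : ℝ) < L := lt_of_lt_of_le (by positivity) hL1
  have hL1' : 1 ≤ L := by
    have : 0 < L := by exact_mod_cast hL0
    omega
  have hLN : L ≤ N := by
    have h8 : P ^ (-(4 * e)) ≤ 1 / 2 := by
      have h9 : P ^ (-(4 * e)) ≤ P ^ (-(e / 2)) :=
        Real.rpow_le_rpow_of_exponent_le hP1 (by linarith)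
      have h10 : P ^ (-(e / 2)) = (P ^ (e / 2))⁻¹ := Real.rpow_neg hP0.le _
      have h11 : (P ^ (e / 2))⁻¹ ≤ 2⁻¹ := inv_anti₀ (by norm_num) hb1
      rw [h10] at h9
      linarith
    have h12 : (L : ℝ) ≤ N := by
      calc (L : ℝ) ≤ 2 * N * P ^ (-(4 * e)) := hL2
        _ ≤ 2 * N * (1 / 2) := mul_le_mul_of_nonneg_left h8 (by positivity)
        _ = N := by ring
    exact_mod_cast h12
  have hLp : L ≤ p := by omega
  -- T
  obtain ⟨T, hTdef⟩ : ∃ T : ℕ, T = ⌊C * P ^ e⌋₊ := ⟨_, rfl⟩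
  have hTle : (T : ℝ) ≤ C * P ^ e := by
    rw [hTdef]
    exact Nat.floor_le (by positivity)
  have hTdiv : ∀ n : ℕ, 1 ≤ n → n ≤ p → n.divisors.card ≤ T := by
    intro n hn1 hn2
    rw [hTdef]
    apply Nat.le_floor
    have h8 : (n : ℝ) ≤ P := by
      rw [hPdef]
      exact_mod_cast hn2
    calc (n.divisors.card : ℝ) ≤ C * (n : ℝ) ^ e := hC n hn1
      _ ≤ C * P ^ e := by
          apply mul_le_mul_of_nonneg_left _ hC0.le
          exact Real.rpow_le_rpow (by positivity) h8 he0.le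
  -- the inputs
  have hmom := h1 p χ hχ k V (by omega) h2V
  have hcs := h2 p χ N L (P ^ e) B β hL1' (by positivity) hβ hcl'
  have hnus := h3 p χ N L V B hL1' hLp
  obtain ⟨hnu0, hmass⟩ := h4 p N L B hL1'
  have hcol := h5 p N L T B hL1' hLN h24N hTdiv
  have hPh0 : ∀ x, 0 ≤ Ph χ V x := fun x => norm_nonneg _
  have hhol := h6 p (nu B N L) (Ph χ V) k (by omega) hnu0 hPh0
  rw [← hPdef] at hmom hcol
  have hsq : Real.sqrt P = P ^ (1 / 2 : ℝ) := Real.sqrt_eq_rpow P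
  rw [hsq] at hmom
  have hmom' := CASEA_mom k V P (P ^ (1 / 2 : ℝ)) _ hV0.le (by positivity) hss hVk hmom
  rw [← hK] at hmom'
  obtain ⟨X, hXdef⟩ : ∃ X : ℝ, X = (N : ℝ) * (B.card : ℝ) := ⟨_, rfl⟩
  rw [← hXdef] at hX hmass
  have hb0 : (0 : ℝ) ≤ (B.card : ℝ) := Nat.cast_nonneg _
  have hX0 : 0 ≤ X := by rw [hXdef]; exact mul_nonneg hN0.le hb0
  have hs0 : 0 ≤ P ^ (1 / 2 : ℝ) := by linarith
  have htwo := CASEA_two P e C X N B.card L T (P ^ (1 / 2 : ℝ)) _ hP1 he0 (by linarith) hC0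
    hN0.le hb0 hL0 hXdef hX hL1 hTle rfl hcol
  have hW := CASEA_hol k (by omega) P e C X V (P ^ (1 / 2 : ℝ)) _ _ _ _ K d hP1 hX0 hV0.le
    hs0 (sum_nonneg fun x _ => hnu0 x) (sum_nonneg fun x _ => sq_nonneg _) hK0 hC0
    (sum_nonneg fun x _ => mul_nonneg (hnu0 x) (hPh0 x)) hmass hmom' htwo hb2 hd2k hhol
  exact CASEA_end P e X N B.card L V _ _ d _ hP1 he0 hde hd0 hN0.le hb0 hXdef hV0
    hVle hL2 hL0.le (sum_nonneg fun n _ => norm_nonneg _) hb3 hW hnus hcs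

end Pool.Agent.PY2
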